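import Mathlib
import Pool.Agent.Helper53_TDG.Comp
import Pool.Agent.Helper29_TDG.Stmts

/-!
# Total domination game, bound 2/3: case I, `F > 0` (module CI)
-/

set_option autoImplicit false

namespace Pool.Agent.TDG.H67

open Finset Helper77.TDG Pool.Agent.TDG

lemma sf_empty_of_conn {V X : Type} [Fintype V] [DecidableEq V] [DecidableEq X]
    {N : V → Finset X} {Hv U : Finset X} (hc : Conn N U) (hb : ¬ Bad N Hv U) :
    sf N Hv U ∅ = 0 := by
  have h1 : bc N Hv U ∅ = ∅ := by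
    rw [eq_empty_iff_forall_notMem]
    intro K hK
    have h2 := bc_subset_comps hK
    rw [sdiff_empty, hc.comps, mem_singleton] at h2
    subst h2
    exact hb (mem_bc.1 hK).2
  unfold sf ph
  rw [h1, J_empty]
  simp

theorem ci (hDR : DRStmt) (hUH : UHStmt) (hSU : SUStmt) (hXE : XEStmt) (hCL : CLStmt)
    (hFA : FAStmt) : CIStmt := by
  intro V X _ _ _ N Hv U A hctx hF
  have hA := hctx.hA
  have hAU : A ⊆ U \ Hv := hA.1
  -- an inclusion-minimal maximiser inside `A`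
  obtain ⟨P₀, hP₀A, hP₀⟩ := hFA V X N Hv U A hctx.hW hA
  obtain ⟨R, hRmem, hRmin⟩ := exists_min_image
    ((A.powerset).filter fun P => sf N Hv U P = F2 N Hv U) (fun P => P.card)
    ⟨P₀, mem_filter.2 ⟨mem_powerset.2 hP₀A, hP₀⟩⟩
  rw [mem_filter, mem_powerset] at hRmem
  obtain ⟨hRA, hRF⟩ := hRmem
  have hRU : R ⊆ U \ Hv := hRA.trans hAU
  have hmin : ∀ T, T ⊆ R → T ≠ R → sf N Hv U T ≤ F2 N Hv U - 1 := by
    intro T hT hne
    have h1 : sf N Hv U T ≤ F2 N Hv U := sf_le_F2 (hT.trans hRU)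
    rcases h1.lt_or_eq with h2 | h2
    · omega
    · exfalso
      have h3 := hRmin T (mem_filter.2 ⟨mem_powerset.2 (hT.trans hRA), h2⟩)
      exact hne (eq_of_subset_of_card_le hT h3)
  have hRne : R.Nonempty := by
    rw [nonempty_iff_ne_empty]
    rintro rfl
    rw [sf_empty_of_conn hctx.hc hctx.hb] at hRF
    omega
  -- a cluster closed by `R`
  have hbne : (bc N Hv U R).Nonempty := by
    rw [nonempty_iff_ne_empty]
    intro h
    have h1 := (hXE V X N Hv U A hctx).1 R hRU hRne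
    have h2 : sf N Hv U R = - ph N U R := by
      unfold sf
      rw [h]
      simp
    omega
  obtain ⟨C, hC⟩ := hbne
  obtain ⟨hCA, htR⟩ := (hUH V X N Hv U A R C hctx.hW hA hRA).1 hC
  obtain ⟨hCne, hCd, hCU, htA, htne, hpl, hatt⟩ := hCL V X N Hv U A C hctx hCA
  -- union-closedness
  have hun : ∀ T₁ T₂, T₁ ⊆ R → T₂ ⊆ R → F2 N Hv U - 1 ≤ sf N Hv U T₁ →
      F2 N Hv U - 1 ≤ sf N Hv U T₂ → ¬ tok N U C ⊆ T₁ → ¬ tok N U C ⊆ T₂ →
      F2 N Hv U - 1 ≤ sf N Hv U (T₁ ∪ T₂) ∧ ¬ tok N U C ⊆ T₁ ∪ T₂ := by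
    intro T₁ T₂ h1 h2 hs1 hs2 hn1 hn2
    have h3 := hSU V X N Hv U A T₁ T₂ hctx.hW hA (h1.trans hRA) (h2.trans hRA)
    have h4 : sf N Hv U (T₁ ∩ T₂) ≤ F2 N Hv U - 1 := by
      refine hmin _ (inter_subset_left.trans h1) ?_
      intro h
      apply hn1
      refine htR.trans ?_
      rw [← h]
      exact inter_subset_left
    have h5 : sf N Hv U (T₁ ∪ T₂) ≤ F2 N Hv U := sf_le_F2 ((union_subset h1 h2).trans hRU)
    refine ⟨by omega, fun hsub => ?_⟩
    have h6 : C ∈ newc N Hv U A T₁ T₂ := by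
      unfold newc
      simp only [Finset.mem_filter]
      exact ⟨hCA, hsub, hn1, hn2⟩
    have h7 := card_pos.2 ⟨C, h6⟩
    omega
  -- the good token
  have hw : ∃ w ∈ tok N U C, ∀ T, T ⊆ R → F2 N Hv U - 1 ≤ sf N Hv U T →
      ¬ tok N U C ⊆ T → w ∉ T := by
    by_contra hcon
    push Not at hcon
    classical
    obtain ⟨w₀, hw₀⟩ := htne
    obtain ⟨T₀, hT₀⟩ := hcon w₀ hw₀
    obtain ⟨T, hTm, hTmax⟩ := exists_max_image
      ((R.powerset).filter fun T => F2 N Hv U - 1 ≤ sf N Hv U T ∧ ¬ tok N U C ⊆ T)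
      (fun T => T.card) ⟨T₀, by
        rw [mem_filter, mem_powerset]
        exact ⟨hT₀.1, hT₀.2.1, hT₀.2.2.1⟩⟩
    rw [mem_filter, mem_powerset] at hTm
    apply hTm.2.2
    intro w hw
    obtain ⟨T', h1, h2, h3, h4⟩ := hcon w hw
    have h5 := hun T T' hTm.1 h1 hTm.2.1 h2 hTm.2.2 h3
    have h6 := hTmax (T ∪ T') (by
      rw [mem_filter, mem_powerset]
      exact ⟨union_subset hTm.1 h1, h5.1, h5.2⟩)
    have h7 : T = T ∪ T' := eq_of_subset_of_card_le subset_union_left h6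
    rw [h7]
    exact mem_union_right _ h4
  obtain ⟨w, hwt, hwT⟩ := hw
  obtain ⟨v, hwv, hvC⟩ := hatt w hwt
  obtain ⟨-, hvU, hvA⟩ := hpl v hvC
  have hwA : w ∈ A := htA hwt
  have hwU : w ∈ U := (mem_sdiff.1 (hAU hwA)).1
  have hne : (N v ∩ U).Nonempty := ⟨w, mem_inter.2 ⟨hwv, hwU⟩⟩
  obtain ⟨P, hPA, hvP, hd1, hd2⟩ := hDR V X N Hv U A v hctx.hW hctx.ih hA hne hvU
  have hk : 1 ≤ (J N U (N v ∩ U)).card :=
    card_pos.2 ⟨v, mem_J.2 ⟨hne, Subset.refl _⟩⟩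
  have hPF : sf N Hv U P ≤ F2 N Hv U := sf_le_F2 (hPA.trans hAU)
  refine ⟨v, hne, ?_⟩
  unfold MM
  by_cases htP : tok N U C ⊆ P
  · have := hd2 C hCA hvC htP
    omega
  · have h1 : sf N Hv U P ≤ F2 N Hv U - 2 := by
      by_contra hcon
      have h2 := hSU V X N Hv U A P R hctx.hW hA hPA hRA
      have h3 : sf N Hv U (P ∪ R) ≤ F2 N Hv U := sf_le_F2 ((union_subset hPA hRA).trans hAU)
      have h4 := hwT (P ∩ R) inter_subset_right (by omega)
        (fun h => htP (h.trans inter_subset_left))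
      exact h4 (mem_inter.2 ⟨hvP (mem_inter.2 ⟨hwv, hwA⟩), htR hwt⟩)
    omega

end Pool.Agent.TDG.H67
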