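import Mathlib
import Pool.Agent.Helper53_TDG.Comp
import Pool.Agent.Helper29_TDG.Stmts

/-!
# Total domination game, bound 2/3: supermodularity inside a maximal optimal set (module SU)
-/

set_option autoImplicit false

namespace Pool.Agent.TDG.H67

open Finset Helper77.TDG Pool.Agent.TDG

theorem su (hUH : UHStmt) : SUStmt := by
  intro V X _ _ _ N Hv U A T₁ T₂ hW hA h1 h2
  have hu : T₁ ∪ T₂ ⊆ A := union_subset h1 h2
  have hi : T₁ ∩ T₂ ⊆ A := inter_subset_left.trans h1
  -- cardinalities of the sets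
  have hc := card_union_add_card_inter T₁ T₂
  -- players
  have hJ1 := card_union_add_card_inter (J N U T₁) (J N U T₂)
  have hJ2 : (J N U T₁ ∪ J N U T₂).card ≤ (J N U (T₁ ∪ T₂)).card :=
    card_le_card (union_subset (J_mono subset_union_left) (J_mono subset_union_right))
  rw [← J_inter] at hJ1
  -- clusters
  have hb := card_union_add_card_inter (bc N Hv U T₁) (bc N Hv U T₂)
  have hbi : bc N Hv U T₁ ∩ bc N Hv U T₂ = bc N Hv U (T₁ ∩ T₂) := by
    ext C
    rw [mem_inter, hUH V X N Hv U A T₁ C hW hA h1, hUH V X N Hv U A T₂ C hW hA h2,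
      hUH V X N Hv U A (T₁ ∩ T₂) C hW hA hi, subset_inter_iff]
    tauto
  have hbd : Disjoint (bc N Hv U T₁ ∪ bc N Hv U T₂) (newc N Hv U A T₁ T₂) := by
    rw [disjoint_left]
    intro C hC hn
    unfold newc at hn
    simp only [Finset.mem_filter] at hn
    rw [mem_union, hUH V X N Hv U A T₁ C hW hA h1, hUH V X N Hv U A T₂ C hW hA h2] at hC
    rcases hC with hC | hC
    · exact hn.2.2.1 hC.2
    · exact hn.2.2.2 hC.2
  have hbu : (bc N Hv U T₁ ∪ bc N Hv U T₂) ∪ newc N Hv U A T₁ T₂ ⊆ bc N Hv U (T₁ ∪ T₂) := by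
    intro C hC
    rw [hUH V X N Hv U A (T₁ ∪ T₂) C hW hA hu]
    rw [mem_union, mem_union, hUH V X N Hv U A T₁ C hW hA h1,
      hUH V X N Hv U A T₂ C hW hA h2] at hC
    rcases hC with (hC | hC) | hC
    · exact ⟨hC.1, hC.2.trans subset_union_left⟩
    · exact ⟨hC.1, hC.2.trans subset_union_right⟩
    · unfold newc at hC
      simp only [Finset.mem_filter] at hC
      exact ⟨hC.1, hC.2.1⟩
  have hbc := card_le_card hbu
  rw [card_union_of_disjoint hbd] at hbc
  rw [hbi] at hb
  unfold sf ph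
  omega

end Pool.Agent.TDG.H67
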